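import Mathlib
import Pool.Agent.H84.PMDefs
import Pool.Agent.H84.PMPoly

set_option autoImplicit false

namespace Pool.Agent.Results.MP_a3bfba_gt.Counter

open Pool.Agent.H84.PMDefs

/-- A (complete) projective-metric space of straight type with the regular polygon property that
is neither Euclidean nor hyperbolic. -/
theorem result : ∃ (m : ℕ) (M : Set (EuclideanSpace ℝ (Fin m)))
    (d : EuclideanSpace ℝ (Fin m) → EuclideanSpace ℝ (Fin m) → ℝ),
    2 ≤ m ∧ IsStraightPM M d ∧ RegularPolygonProperty M d ∧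
      ¬ EmbedsEuclidean M d ∧ ¬ EmbedsHyperbolic M d :=
  ⟨4, Set.univ, H84.PMPoly.d, by norm_num, H84.PMPoly.isPM, H84.PMPoly.poly,
    H84.PMPoly.not_eucl, H84.PMPoly.not_hyp⟩

end Pool.Agent.Results.MP_a3bfba_gt.Counter
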